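import Mathlib

namespace Pool.Agent.Results.MP_4faf9f_co.ProductsCommute

open Finset Equiv

variable {n : ℕ}

/-- The descent set of a permutation of `n + 1` points. -/
def Des (π : Perm (Fin (n + 1))) : Finset (Fin n) :=
  univ.filter (fun i => π i.succ < π i.castSucc)

/-- The exponent vector of the monomial `x_{f 0} ⋯ x_{f n}`. -/
noncomputable def content (f : Fin (n + 1) → ℕ) : ℕ →₀ ℕ := ∑ i, Finsupp.single (f i) 1

/-- Gessel's fundamental quasisymmetric function of degree `n + 1`: the sum of the monomials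
`x_{f 0} ⋯ x_{f n}` over weakly increasing `f` that increase strictly at the places in `D`. -/
noncomputable def fund (D : Finset (Fin n)) : MvPowerSeries ℕ ℤ := fun m =>
  (Set.ncard {f : Fin (n + 1) → ℕ |
    Monotone f ∧ (∀ i ∈ D, f i.castSucc < f i.succ) ∧ content f = m} : ℤ)

/-- The quasisymmetric function of a multiset of permutations. -/
noncomputable def Q (A : Multiset (Perm (Fin (n + 1)))) : MvPowerSeries ℕ ℤ :=
  (A.map (fun π => fund (Des π))).sum

/-- A power series is symmetric: its coefficients are invariant under permuting the variables. -/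
def IsSymm (S : MvPowerSeries ℕ ℤ) : Prop :=
  ∀ (σ : Perm ℕ) (m : ℕ →₀ ℕ),
    MvPowerSeries.coeff (m.mapDomain σ) S = MvPowerSeries.coeff m S

/-- The inverse descent class of `J`. -/
def invDes (J : Finset (Fin n)) : Finset (Perm (Fin (n + 1))) :=
  univ.filter (fun π => Des π⁻¹ = J)

/-- The multiset product of two sets of permutations. -/
def prod (A B : Finset (Perm (Fin (n + 1)))) : Multiset (Perm (Fin (n + 1))) :=
  (A ×ˢ B).val.map (fun x => x.1 * x.2)

/-! ### Proof -/

lemma content_perm (f : Fin (n + 1) → ℕ) (ρ : Perm (Fin (n + 1))) :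
    content (fun i => f (ρ i)) = content f :=
  Equiv.sum_comp ρ (fun i => Finsupp.single (f i) 1)

lemma content_map (f : Fin (n + 1) → ℕ) (σ : ℕ → ℕ) :
    content (fun i => σ (f i)) = (content f).mapDomain σ := by
  unfold content
  rw [Finsupp.mapDomain_finset_sum]
  simp [Finsupp.mapDomain_single]

lemma content_ms (f : Fin (n + 1) → ℕ) : Finsupp.toMultiset (content f) = ↑(List.ofFn f) := by
  unfold content
  rw [map_sum, ← Fin.univ_val_map]
  simp only [Finsupp.toMultiset_single, one_nsmul]
  rw [Finset.sum_eq_multiset_sum]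
  have : Multiset.map (fun i => ({f i} : Multiset ℕ)) univ.val =
      Multiset.map (fun a => ({a} : Multiset ℕ)) (Multiset.map f univ.val) := by
    rw [Multiset.map_map]
    rfl
  rw [this, Multiset.sum_map_singleton]

lemma uniq {f g : Fin (n + 1) → ℕ} (hf : Monotone f) (hg : Monotone g)
    (h : content f = content g) : f = g := by
  have h1 : (↑(List.ofFn f) : Multiset ℕ) = ↑(List.ofFn g) := by
    rw [← content_ms, ← content_ms, h]
  exact List.ofFn_injective
    (List.Perm.eq_of_sortedLE hf.sortedLE_ofFn hg.sortedLE_ofFn (Multiset.coe_eq_coe.1 h1))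

lemma app_inv (e : Perm (Fin (n + 1))) (v : Fin (n + 1)) : e (e⁻¹ v) = v := by simp

def Compat (π : Perm (Fin (n + 1))) (g : Fin (n + 1) → ℕ) : Prop :=
  ∀ i j, i < j → g i < g j ∨ (g i = g j ∧ π i < π j)

lemma Compat.mono {π : Perm (Fin (n + 1))} {g : Fin (n + 1) → ℕ} (h : Compat π g) :
    Monotone g := by
  intro i j hij
  rcases eq_or_lt_of_le hij with rfl | h1
  · exact le_rfl
  · rcases h i j h1 with h2 | h2
    · exact h2.le
    · exact h2.1.le

lemma compat_iff (π : Perm (Fin (n + 1))) (g : Fin (n + 1) → ℕ) :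
    Compat π g ↔ Monotone g ∧ ∀ i ∈ Des π, g i.castSucc < g i.succ := by
  constructor
  · intro h
    refine ⟨h.mono, fun i hi => ?_⟩
    have h1 : π i.succ < π i.castSucc := by simpa [Des] using hi
    rcases h i.castSucc i.succ Fin.castSucc_lt_succ with h2 | h2
    · exact h2
    · exact absurd h2.2 (not_lt.2 h1.le)
  · rintro ⟨h1, h2⟩
    have h3 : StrictMono (fun i => toLex (g i, π i)) := by
      rw [Fin.strictMono_iff_lt_succ]
      intro i
      rw [Prod.Lex.toLex_lt_toLex]
      rcases eq_or_lt_of_le (h1 (Fin.castSucc_lt_succ (i := i)).le) with h4 | h4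
      · refine Or.inr ⟨h4, ?_⟩
        have h5 : i ∉ Des π := fun hi => absurd (h2 i hi) (by omega)
        have h6 : ¬ π i.succ < π i.castSucc := by simpa [Des] using h5
        have h7 : π i.castSucc ≠ π i.succ :=
          fun e => (Fin.castSucc_lt_succ (i := i)).ne (π.injective e)
        exact lt_of_le_of_ne (not_lt.1 h6) h7
      · exact Or.inl h4
    intro i j hij
    exact Prod.Lex.toLex_lt_toLex.1 (h3 hij)

open Classical in
lemma fund_content (π : Perm (Fin (n + 1))) {g : Fin (n + 1) → ℕ} (hg : Monotone g) :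
    MvPowerSeries.coeff (content g) (fund (Des π)) = if Compat π g then 1 else 0 := by
  show ((Set.ncard _ : ℕ) : ℤ) = _
  split_ifs with h
  · have : {f : Fin (n + 1) → ℕ | Monotone f ∧ (∀ i ∈ Des π, f i.castSucc < f i.succ) ∧
        content f = content g} = {g} := by
      ext f
      constructor
      · rintro ⟨h1, -, h3⟩
        exact uniq h1 hg h3
      · rintro rfl
        exact ⟨hg, ((compat_iff π f).1 h).2, rfl⟩
    rw [this, Set.ncard_singleton]
    rfl
  · have : {f : Fin (n + 1) → ℕ | Monotone f ∧ (∀ i ∈ Des π, f i.castSucc < f i.succ) ∧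
        content f = content g} = ∅ := by
      ext f
      constructor
      · rintro ⟨h1, h2, h3⟩
        obtain rfl := uniq h1 hg h3
        exact h ((compat_iff π f).2 ⟨h1, h2⟩)
      · exact fun hf => hf.elim
    rw [this, Set.ncard_empty]
    rfl

lemma fund_zero (D : Finset (Fin n)) (m : ℕ →₀ ℕ)
    (h : ¬ ∃ g : Fin (n + 1) → ℕ, Monotone g ∧ content g = m) :
    MvPowerSeries.coeff m (fund D) = 0 := by
  show ((Set.ncard _ : ℕ) : ℤ) = _
  have : {f : Fin (n + 1) → ℕ | Monotone f ∧ (∀ i ∈ D, f i.castSucc < f i.succ) ∧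
      content f = m} = ∅ := by
    ext f
    constructor
    · rintro ⟨h1, -, h3⟩
      exact h ⟨f, h1, h3⟩
    · exact fun hf => hf.elim
  rw [this, Set.ncard_empty]
  rfl

def beta (J : Finset (Fin n)) (v : Fin (n + 1)) : ℕ := (J.filter (fun j => j.val < v.val)).card

lemma beta_mono (J : Finset (Fin n)) : Monotone (beta J) := by
  intro u v huv
  apply card_le_card
  intro j hj
  rw [mem_filter] at hj ⊢
  exact ⟨hj.1, lt_of_lt_of_le hj.2 huv⟩

lemma beta_lt (J : Finset (Fin n)) (i : Fin n) : beta J i.castSucc < beta J i.succ ↔ i ∈ J := by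
  unfold beta
  constructor
  · intro h
    by_contra hi
    have : J.filter (fun j => j.val < i.succ.val) ⊆ J.filter (fun j => j.val < i.castSucc.val) := by
      intro j hj
      rw [mem_filter] at hj ⊢
      refine ⟨hj.1, ?_⟩
      have h1 : j ≠ i := fun e => hi (e ▸ hj.1)
      have h2 : j.val ≠ i.val := fun e => h1 (Fin.ext e)
      have h3 := hj.2
      simp only [Fin.val_succ, Fin.val_castSucc] at h3 ⊢
      omega
    exact absurd (card_le_card this) (not_le.2 h)
  · intro hi
    apply card_lt_card
    rw [Finset.ssubset_iff_of_subset]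
    · exact ⟨i, by simp [hi], by simp⟩
    · intro j hj
      rw [mem_filter] at hj ⊢
      have h3 := hj.2
      simp only [Fin.val_succ, Fin.val_castSucc] at h3 ⊢
      exact ⟨hj.1, by omega⟩

lemma compat_beta (π : Perm (Fin (n + 1))) (J : Finset (Fin n)) :
    Compat π (beta J) ↔ Des π ⊆ J := by
  rw [compat_iff]
  constructor
  · intro h i hi
    exact (beta_lt J i).1 (h.2 i hi)
  · intro h
    exact ⟨beta_mono J, fun i hi => (beta_lt J i).2 (h hi)⟩

open Classical in
noncomputable def GG (L : ℕ) (p q : Fin (n + 1) → ℕ) : Finset (Fin (n + 1) → ℕ) :=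
  (Fintype.piFinset (fun _ => range (L * L))).filter (fun g => Monotone g ∧
    content (fun i => g i / L) = content p ∧ content (fun i => g i % L) = content q)

lemma mem_GG {L : ℕ} {p q g : Fin (n + 1) → ℕ} : g ∈ GG L p q ↔ (∀ i, g i < L * L) ∧ Monotone g ∧
    content (fun i => g i / L) = content p ∧ content (fun i => g i % L) = content q := by
  simp [GG]

open Classical in
/-- Gessel's formula in counting form. -/
lemma gessel (b : Perm (Fin (n + 1))) (L : ℕ) (p q : Fin (n + 1) → ℕ) (hp : Monotone p)
    (hq : Monotone q) (hpL : ∀ i, p i < L) (hqL : ∀ i, q i < L) :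
    (univ.filter (fun e : Perm (Fin (n + 1)) => Compat e p ∧ Compat (b * e⁻¹) q)).card =
      ((GG L p q).filter (fun g => Compat b g)).card := by
  have hL : 0 < L := lt_of_le_of_lt (Nat.zero_le _) (hpL 0)
  have hdiv : ∀ x y, y < L → (x * L + y) / L = x := by
    intro x y hy
    rw [add_comm, Nat.add_mul_div_right _ _ hL, Nat.div_eq_of_lt hy, zero_add]
  have hmod : ∀ x y, y < L → (x * L + y) % L = y := by
    intro x y hy
    rw [add_comm, Nat.add_mul_mod_self_right, Nat.mod_eq_of_lt hy]
  apply Finset.card_bij (fun e _ => fun i => p i * L + q (e i))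
  · intro e he
    rw [mem_filter] at he ⊢
    obtain ⟨-, h1, h2⟩ := he
    have hc : Compat b (fun i => p i * L + q (e i)) := by
      intro i j hij
      rcases h1 i j hij with h3 | ⟨h3, h4⟩
      · left
        have := hqL (e i)
        nlinarith [Nat.zero_le (q (e j))]
      · rcases h2 _ _ h4 with h5 | ⟨h5, h6⟩
        · left
          show p i * L + q (e i) < p j * L + q (e j)
          rw [h3]
          omega
        · right
          refine ⟨?_, by simpa using h6⟩
          show p i * L + q (e i) = p j * L + q (e j)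
          rw [h3, h5]
    refine ⟨mem_GG.2 ⟨?_, hc.mono, ?_, ?_⟩, hc⟩
    · intro i
      have := hpL i
      have := hqL (e i)
      nlinarith
    · simp only [hdiv _ _ (hqL _)]
    · simp only [hmod _ _ (hqL _)]
      exact content_perm q e
  · intro e he e' he' h
    rw [mem_filter] at he he'
    have hw : ∀ i, q (e i) = q (e' i) := by
      intro i
      have : p i * L + q (e i) = p i * L + q (e' i) := congrFun h i
      omega
    have key : ∀ e : Perm (Fin (n + 1)), Compat (b * e⁻¹) q →
        Monotone ((fun u => toLex (q (e u), b u)) ∘ (e⁻¹ : Perm (Fin (n + 1)))) := by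
      intro e h2
      apply StrictMono.monotone
      intro v v' hv
      simp only [Function.comp, app_inv]
      exact Prod.Lex.toLex_lt_toLex.2 (h2 v v' hv)
    have k1 := key e he.2.2
    have k2 := key e' he'.2.2
    simp only [← hw] at k2
    have k3 := Tuple.unique_monotone k1 k2
    have k4 : e⁻¹ = e'⁻¹ := by
      ext v
      have := congrArg (fun x => (ofLex x).2) (congrFun k3 v)
      simp only [Function.comp, ofLex_toLex] at this
      rw [b.injective this]
    exact inv_injective k4
  · intro g hg
    rw [mem_filter, mem_GG] at hg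
    obtain ⟨⟨-, hm, h1, h2⟩, hc⟩ := hg
    have hp' : (fun i => g i / L) = p :=
      uniq (fun i j hij => Nat.div_le_div_right (hm hij)) hp h1
    have hp2 : ∀ i, g i / L = p i := fun i => congrFun hp' i
    set k : Fin (n + 1) → ℕ ×ₗ Fin (n + 1) := fun u => toLex (g u % L, b u) with hk
    set s := Tuple.sort k with hs
    have hks : Monotone (k ∘ s) := Tuple.monotone_sort k
    have hks' : ∀ v v', v < v' → g (s v) % L < g (s v') % L ∨
        (g (s v) % L = g (s v') % L ∧ b (s v) < b (s v')) := by
      intro v v' hv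
      have h3 : k (s v) ≠ k (s v') := by
        intro e
        have := congrArg (fun x => (ofLex x).2) e
        simp only [hk, ofLex_toLex] at this
        exact hv.ne (s.injective (b.injective this))
      exact Prod.Lex.toLex_lt_toLex.1 (lt_of_le_of_ne (hks hv.le) h3)
    have hq' : (fun v => g (s v) % L) = q := by
      apply uniq _ hq
      · rw [← h2]
        exact content_perm (fun i => g i % L) s
      · exact Compat.mono (π := b * s) hks'
    have hq2 : ∀ v, g (s v) % L = q v := fun v => congrFun hq' v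
    refine ⟨s⁻¹, mem_filter.2 ⟨mem_univ _, ?_, ?_⟩, ?_⟩
    · intro i j hij
      rcases eq_or_lt_of_le (hp hij.le) with h3 | h3
      · refine Or.inr ⟨h3, ?_⟩
        have h4 : k i < k j := by
          apply Prod.Lex.toLex_lt_toLex.2
          have e1 := Nat.div_add_mod (g i) L
          have e2 := Nat.div_add_mod (g j) L
          rw [hp2] at e1 e2
          rw [h3] at e1
          rcases hc i j hij with h5 | ⟨h5, h6⟩
          · left
            show g i % L < g j % L
            omega
          · right
            exact ⟨by show g i % L = g j % L; rw [h5], h6⟩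
        by_contra h5
        have h6 := hks (not_lt.1 h5)
        simp only [Function.comp, app_inv] at h6
        exact absurd h4 (not_lt.2 h6)
      · exact Or.inl h3
    · intro v v' hv
      have := hks' v v' hv
      rw [hq2, hq2] at this
      simpa using this
    · funext i
      rw [← hq2, ← hp2, app_inv]
      exact Nat.div_add_mod' _ _

def sw (L x : ℕ) : ℕ := if x < L * L then x % L * L + x / L else x

lemma sw_facts {L x : ℕ} (h : x < L * L) :
    sw L x < L * L ∧ sw L x / L = x % L ∧ sw L x % L = x / L := by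
  have hL : 0 < L := Nat.pos_of_ne_zero (by rintro rfl; simp at h)
  have h1 : x / L < L := Nat.div_lt_of_lt_mul h
  have h2 : x % L < L := Nat.mod_lt _ hL
  unfold sw
  rw [if_pos h]
  refine ⟨by nlinarith, ?_, ?_⟩
  · rw [add_comm, Nat.add_mul_div_right _ _ hL, Nat.div_eq_of_lt h1, zero_add]
  · rw [add_comm, Nat.add_mul_mod_self_right, Nat.mod_eq_of_lt h1]

lemma sw_invol (L : ℕ) : Function.Involutive (sw L) := by
  intro x
  by_cases h : x < L * L
  · obtain ⟨h1, h2, h3⟩ := sw_facts h
    rw [sw, if_pos h1, h2, h3]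
    exact Nat.div_add_mod' _ _
  · have : sw L x = x := by rw [sw, if_neg h]
    rw [this, this]

noncomputable def flp (L : ℕ) (g : Fin (n + 1) → ℕ) : Fin (n + 1) → ℕ :=
  fun i => sw L (g (Tuple.sort (fun j => sw L (g j)) i))

lemma flp_mono (L : ℕ) (g : Fin (n + 1) → ℕ) : Monotone (flp L g) :=
  Tuple.monotone_sort (fun j => sw L (g j))

lemma flp_content (L : ℕ) (g : Fin (n + 1) → ℕ) :
    content (flp L g) = (content g).mapDomain (sw L) := by
  rw [← content_map]
  exact content_perm (fun j => sw L (g j)) _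

lemma flp_mem {L : ℕ} {p q g : Fin (n + 1) → ℕ} (h : g ∈ GG L p q) : flp L g ∈ GG L q p := by
  rw [mem_GG] at h ⊢
  obtain ⟨h1, -, h3, h4⟩ := h
  refine ⟨fun i => (sw_facts (h1 _)).1, flp_mono L g, ?_, ?_⟩
  · rw [← h4, ← content_perm (fun i => g i % L) (Tuple.sort (fun j => sw L (g j)))]
    exact congrArg content (funext fun i => (sw_facts (h1 _)).2.1)
  · rw [← h3, ← content_perm (fun i => g i / L) (Tuple.sort (fun j => sw L (g j)))]
    exact congrArg content (funext fun i => (sw_facts (h1 _)).2.2)

lemma flp_flp {L : ℕ} {p q g : Fin (n + 1) → ℕ} (h : g ∈ GG L p q) : flp L (flp L g) = g := by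
  apply uniq (flp_mono _ _) (mem_GG.1 h).2.1
  rw [flp_content, flp_content, ← Finsupp.mapDomain_comp, (sw_invol L).comp_self,
    Finsupp.mapDomain_id]

lemma coeff_Q (B : Finset (Perm (Fin (n + 1)))) (m : ℕ →₀ ℕ) :
    MvPowerSeries.coeff m (Q B.val) = ∑ b ∈ B, MvPowerSeries.coeff m (fund (Des b)) := by
  rw [← map_sum]
  rfl

lemma coeff_Q_prod (A B : Finset (Perm (Fin (n + 1)))) (m : ℕ →₀ ℕ) :
    MvPowerSeries.coeff m (Q (prod A B)) =
      ∑ a ∈ A, ∑ b ∈ B, MvPowerSeries.coeff m (fund (Des (a * b))) := by
  rw [← Finset.sum_product' (f := fun a b => MvPowerSeries.coeff m (fund (Des (a * b)))),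
    ← map_sum]
  unfold Q prod
  rw [Multiset.map_map]
  rfl

open Classical in
lemma swap_sum (B : Finset (Perm (Fin (n + 1)))) (hB : IsSymm (Q B.val)) (L : ℕ)
    (p q : Fin (n + 1) → ℕ) :
    ∑ b ∈ B, (((GG L p q).filter (fun g => Compat b g)).card : ℤ) =
      ∑ b ∈ B, (((GG L q p).filter (fun g => Compat b g)).card : ℤ) := by
  have h1 : ∀ p q : Fin (n + 1) → ℕ,
      ∑ b ∈ B, (((GG L p q).filter (fun g => Compat b g)).card : ℤ) =
        ∑ g ∈ GG L p q, MvPowerSeries.coeff (content g) (Q B.val) := by
    intro p q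
    simp only [card_filter, Nat.cast_sum, Nat.cast_ite, Nat.cast_one, Nat.cast_zero]
    rw [Finset.sum_comm]
    apply Finset.sum_congr rfl
    intro g hg
    rw [coeff_Q]
    apply Finset.sum_congr rfl
    intro b _
    rw [fund_content b (mem_GG.1 hg).2.1]
  rw [h1, h1]
  apply Finset.sum_nbij' (flp L) (flp L)
  · exact fun g hg => flp_mem hg
  · exact fun g hg => flp_mem hg
  · exact fun g hg => flp_flp hg
  · exact fun g hg => flp_flp hg
  · intro g _
    rw [flp_content]
    exact (hB (sw_invol L).toPerm (content g)).symm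

open Classical in
lemma subset_version (B : Finset (Perm (Fin (n + 1)))) (hB : IsSymm (Q B.val))
    {γ : Fin (n + 1) → ℕ} (hγ : Monotone γ) (J : Finset (Fin n)) :
    ∑ b ∈ B, ((univ.filter (fun d : Perm (Fin (n + 1)) => Des d⁻¹ ⊆ J ∧ Compat (b * d) γ)).card : ℤ) =
    ∑ b ∈ B, ((univ.filter (fun d : Perm (Fin (n + 1)) => Des d⁻¹ ⊆ J ∧ Compat (d * b) γ)).card : ℤ) := by
  set L := γ (Fin.last n) + beta J (Fin.last n) + 1 with hL
  have h1 : ∀ i, γ i < L := fun i => by have := hγ (Fin.le_last i); omega
  have h2 : ∀ i, beta J i < L := fun i => by have := beta_mono J (Fin.le_last i); omega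
  have h3 := swap_sum B hB L (beta J) γ
  have e1 : ∀ b : Perm (Fin (n + 1)),
      (univ.filter (fun d : Perm (Fin (n + 1)) => Des d⁻¹ ⊆ J ∧ Compat (b * d) γ)).card =
        ((GG L (beta J) γ).filter (fun g => Compat b g)).card := by
    intro b
    rw [← gessel b L _ _ (beta_mono J) hγ h2 h1]
    apply Finset.card_nbij' (fun d => d⁻¹) (fun d => d⁻¹)
    · intro d hd
      simpa [compat_beta] using hd
    · intro d hd
      simpa [compat_beta] using hd
    · intro d _
      simp
    · intro d _
      simp
  have e2 : ∀ b : Perm (Fin (n + 1)),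
      (univ.filter (fun d : Perm (Fin (n + 1)) => Des d⁻¹ ⊆ J ∧ Compat (d * b) γ)).card =
        ((GG L γ (beta J)).filter (fun g => Compat b g)).card := by
    intro b
    rw [← gessel b L _ _ hγ (beta_mono J) h1 h2]
    apply Finset.card_nbij' (fun d => d * b) (fun e => e * b⁻¹)
    · intro d hd
      simpa [compat_beta, and_comm] using hd
    · intro d hd
      simpa [compat_beta, and_comm] using hd
    · intro d _
      simp
    · intro d _
      simp
  simp only [e1, e2]
  exact h3

lemma mobius (x y : Finset (Fin n) → ℤ)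
    (h : ∀ J : Finset (Fin n), ∑ K ∈ J.powerset, x K = ∑ K ∈ J.powerset, y K)
    (J : Finset (Fin n)) : x J = y J := by
  induction J using Finset.strongInduction with
  | H J ih =>
    have h1 := h J
    rw [← Finset.sum_erase_add _ _ (mem_powerset_self J),
      ← Finset.sum_erase_add _ _ (mem_powerset_self J)] at h1
    have h2 : ∑ K ∈ J.powerset.erase J, x K = ∑ K ∈ J.powerset.erase J, y K := by
      apply Finset.sum_congr rfl
      intro K hK
      rw [mem_erase, mem_powerset] at hK
      exact ih K (lt_of_le_of_ne hK.2 hK.1)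
    omega

open Classical in
lemma fiber (P : Perm (Fin (n + 1)) → Prop) (J : Finset (Fin n)) :
    ∑ K ∈ J.powerset, ∑ d ∈ invDes K, (if P d then (1 : ℤ) else 0) =
      ((univ.filter (fun d : Perm (Fin (n + 1)) => Des d⁻¹ ⊆ J ∧ P d)).card : ℤ) := by
  simp only [invDes, Finset.sum_filter, card_filter, Nat.cast_sum, Nat.cast_ite, Nat.cast_one,
    Nat.cast_zero]
  rw [Finset.sum_comm]
  apply Finset.sum_congr rfl
  intro d _
  rw [Finset.sum_ite_eq]
  by_cases h1 : Des d⁻¹ ⊆ J <;> by_cases h2 : P d <;> simp [h1, h2]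

theorem result (n : ℕ) (B : Finset (Perm (Fin (n + 1)))) (hB : IsSymm (Q B.val))
    (J : Finset (Fin n)) : Q (prod B (invDes J)) = Q (prod (invDes J) B) := by
  classical
  ext m
  rw [coeff_Q_prod, coeff_Q_prod, Finset.sum_comm (s := invDes J)]
  by_cases hm : ∃ g : Fin (n + 1) → ℕ, Monotone g ∧ content g = m
  · obtain ⟨γ, hγ, rfl⟩ := hm
    simp only [fund_content _ hγ]
    apply mobius (fun J => ∑ b ∈ B, ∑ d ∈ invDes J, if Compat (b * d) γ then (1 : ℤ) else 0)
      (fun J => ∑ b ∈ B, ∑ d ∈ invDes J, if Compat (d * b) γ then (1 : ℤ) else 0)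
    intro J
    rw [Finset.sum_comm, Finset.sum_comm (s := J.powerset)]
    simp only [fiber]
    exact subset_version B hB hγ J
  · simp only [fund_zero _ _ hm]

end Pool.Agent.Results.MP_4faf9f_co.ProductsCommute
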